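import Pool.Agent.H38.RB.Targets

/-!
# The mean of `A ^ ω(t)`
-/

set_option autoImplicit false

namespace Pool.Agent.H38.RB

/-- COM: the mean of `A ^ ω(t)`. -/
theorem COM (h1 : T_HT) (h2 : T_MER) : T_COM := by
  intro A hA
  obtain ⟨C, hC, h⟩ := h1 A (by linarith)
  obtain ⟨c, hc, hm⟩ := h2
  have hl2 : 0 < Real.log 2 := Real.log_pos (by norm_num)
  set C' : ℝ := max (C * Real.exp (A * c) / Real.log 2) (max A 1) with hC'
  have hC'1 : 1 ≤ C' := (le_max_right _ _).trans (le_max_right _ _)
  have hC'A : A ≤ C' := (le_max_left _ _).trans (le_max_right _ _)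
  have hC'C : C * Real.exp (A * c) / Real.log 2 ≤ C' := le_max_left _ _
  refine ⟨C', by linarith, fun X hX => ?_⟩
  have hlX : 0 ≤ Real.log X := Real.log_nonneg hX
  have hone : (1 : ℝ) ≤ Real.log X + 2 := by linarith
  by_cases hX2 : 2 ≤ X
  · have h3 := h (fun _ => A) (fun p => ⟨by linarith, le_rfl⟩) X hX2
    simp only [Finset.prod_const] at h3
    refine h3.trans ?_
    have hlX2 : Real.log 2 ≤ Real.log X := Real.log_le_log (by norm_num) hX2
    have hlX0 : 0 < Real.log X := by linarith
    have h4 : ∑ p ∈ (Finset.Icc 1 ⌊X⌋₊).filter Nat.Prime, A / (p : ℝ) ≤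
        A * (Real.log (Real.log X) + c) := by
      calc ∑ p ∈ (Finset.Icc 1 ⌊X⌋₊).filter Nat.Prime, A / (p : ℝ)
          = A * ∑ p ∈ (Finset.Icc 1 ⌊X⌋₊).filter Nat.Prime, 1 / (p : ℝ) := by
            rw [Finset.mul_sum]
            exact Finset.sum_congr rfl fun p _ => by ring
        _ ≤ _ := by
            have := hm X hX2
            gcongr
    have h5 : Real.exp (∑ p ∈ (Finset.Icc 1 ⌊X⌋₊).filter Nat.Prime, A / (p : ℝ)) ≤
        Real.exp (A * c) * Real.log X ^ A := by
      refine (Real.exp_le_exp.2 h4).trans (le_of_eq ?_)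
      rw [Real.rpow_def_of_pos hlX0, ← Real.exp_add]
      congr 1
      ring
    have h6 : Real.log X ^ A ≤ (Real.log X + 2) ^ C' :=
      (Real.rpow_le_rpow hlX (by linarith) (by linarith)).trans
        (Real.rpow_le_rpow_of_exponent_le hone hC'A)
    have h7 : C * X / Real.log X ≤ C * X / Real.log 2 := by gcongr
    calc C * X / Real.log X *
          Real.exp (∑ p ∈ (Finset.Icc 1 ⌊X⌋₊).filter Nat.Prime, A / (p : ℝ))
        ≤ C * X / Real.log 2 * (Real.exp (A * c) * (Real.log X + 2) ^ C') := by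
          refine mul_le_mul h7 (h5.trans ?_) (Real.exp_pos _).le (by positivity)
          gcongr
      _ = C * Real.exp (A * c) / Real.log 2 * X * (Real.log X + 2) ^ C' := by ring
      _ ≤ C' * X * (Real.log X + 2) ^ C' := by gcongr
  · rw [not_le] at hX2
    have h3 : ⌊X⌋₊ = 1 := by
      rw [Nat.floor_eq_iff (by linarith)]
      constructor
      · exact_mod_cast hX
      · norm_num
        linarith
    have h4 : ∑ t ∈ sq X, A ^ t.primeFactors.card = 1 := by
      unfold sq
      rw [h3, Finset.Icc_self, Finset.filter_singleton, if_pos squarefree_one]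
      simp
    rw [h4]
    have h5 : (1 : ℝ) ≤ (Real.log X + 2) ^ C' := Real.one_le_rpow hone (by linarith)
    have h6 : (1 : ℝ) ≤ C' * X := by nlinarith
    nlinarith

/-- COME: the same with `X ^ ε`. -/
theorem COME (h : T_COM) : T_COME := by
  intro A ε hA hε
  obtain ⟨C, hC, hs⟩ := h A hA
  set η : ℝ := ε / C with hη
  have hη0 : 0 < η := by positivity
  set B : ℝ := (1 / η + 2) ^ C with hB
  have hB0 : 0 < B := by positivity
  refine ⟨C * B, by positivity, fun X hX => ?_⟩
  by_cases h1 : 1 ≤ X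
  · refine (hs X h1).trans ?_
    have h2 : Real.log X ≤ X ^ η / η := Real.log_le_rpow_div hX.le hη0
    have h3 : (1 : ℝ) ≤ X ^ η := Real.one_le_rpow h1 hη0.le
    have hlX : 0 ≤ Real.log X := Real.log_nonneg h1
    have h4 : Real.log X + 2 ≤ (1 / η + 2) * X ^ η := by
      have : (1 / η + 2) * X ^ η = X ^ η / η + 2 * X ^ η := by ring
      rw [this]
      linarith
    have h5 : (Real.log X + 2) ^ C ≤ B * X ^ ε := by
      calc (Real.log X + 2) ^ C ≤ ((1 / η + 2) * X ^ η) ^ C :=
            Real.rpow_le_rpow (by linarith) h4 hC.le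
        _ = B * X ^ ε := by
            rw [Real.mul_rpow (by positivity) (by positivity), ← Real.rpow_mul hX.le, hB, hη,
              div_mul_cancel₀ _ hC.ne']
    calc C * X * (Real.log X + 2) ^ C ≤ C * X * (B * X ^ ε) := by gcongr
      _ = C * B * (X * X ^ ε) := by ring
      _ = C * B * X ^ (1 + ε) := by rw [Real.rpow_add hX, Real.rpow_one]
  · rw [not_le] at h1
    have h2 : ⌊X⌋₊ = 0 := Nat.floor_eq_zero.2 h1
    have h3 : ∑ t ∈ sq X, A ^ t.primeFactors.card = 0 := by
      unfold sq
      rw [h2]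
      simp
    rw [h3]
    positivity

end Pool.Agent.H38.RB
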