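import Pool.Agent.H38.RB.Targets

/-!
# The gap principle
-/

set_option autoImplicit false

namespace Pool.Agent.H38.RB

theorem gap_one_le_ht {x : Fin 3 → ℤ} (hx : Adm x) : 1 ≤ ht x := by
  have h : 0 < (x 0).natAbs := Int.natAbs_pos.2 (hx.1 0)
  unfold ht
  omega

theorem gap_natAbs_le_ht (x : Fin 3 → ℤ) (i : Fin 3) : (x i).natAbs ≤ ht x := by
  unfold ht
  fin_cases i <;> simp

theorem gap_abs_le_ht (x : Fin 3 → ℤ) (i : Fin 3) : |(x i : ℝ)| ≤ (ht x : ℝ) := by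
  have h := gap_natAbs_le_ht x i
  rw [← Int.cast_abs, Int.abs_eq_natAbs]
  exact_mod_cast h

theorem gap_det {x y : Fin 3 → ℤ} (hx : x 0 + x 1 + x 2 = 0) (hy : y 0 + y 1 + y 2 = 0)
    (i j : Fin 3) (hij : i ≠ j) :
    x i * y j - x j * y i = x 0 * y 1 - x 1 * y 0 ∨
      x i * y j - x j * y i = -(x 0 * y 1 - x 1 * y 0) := by
  have h1 : x 2 = -x 0 - x 1 := by linarith
  have h2 : y 2 = -y 0 - y 1 := by linarith
  fin_cases i <;> fin_cases j <;>
    first
    | exact absurd rfl hij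
    | (simp only [Fin.zero_eta, Fin.mk_one, Fin.reduceFinMk, Fin.isValue, h1, h2]; left; ring; done)
    | (simp only [Fin.zero_eta, Fin.mk_one, Fin.reduceFinMk, Fin.isValue, h1, h2]; right; ring; done)
    | (left; rfl)

theorem gap_det_ne {x y : Fin 3 → ℤ} (hx : Adm x) (hy : Adm y) (h1 : y ≠ x) (h2 : y ≠ -x) :
    x 0 * y 1 - x 1 * y 0 ≠ 0 := by
  intro h
  have h3 : x 0 * y 1 = x 1 * y 0 := by linarith
  have h4 : x 0 ∣ y 0 :=
    (hx.2.1 0 1 (by decide)).dvd_of_dvd_mul_left (h3 ▸ dvd_mul_right _ _)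
  have h5 : y 0 ∣ x 0 := by
    refine (hy.2.1 0 1 (by decide)).dvd_of_dvd_mul_right ?_
    rw [h3]
    exact dvd_mul_left _ _
  have h6 : (x 0).natAbs = (y 0).natAbs :=
    Nat.dvd_antisymm (Int.natAbs_dvd_natAbs.2 h4) (Int.natAbs_dvd_natAbs.2 h5)
  have hx0 := hx.1 0
  rcases Int.natAbs_eq_natAbs_iff.1 h6 with h7 | h7
  · apply h1
    have h8 : y 1 = x 1 := by
      rw [← h7] at h3
      apply mul_left_cancel₀ hx0
      rw [h3]; ring
    have h9 : y 2 = x 2 := by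
      have := hx.2.2
      have := hy.2.2
      linarith
    funext i
    fin_cases i
    · exact h7.symm
    · exact h8
    · exact h9
  · apply h2
    have h7' : y 0 = -x 0 := by linarith
    have h8 : y 1 = -x 1 := by
      rw [h7'] at h3
      apply mul_left_cancel₀ hx0
      rw [h3]; ring
    have h9 : y 2 = -x 2 := by
      have := hx.2.2
      have := hy.2.2
      linarith
    funext i
    fin_cases i
    · exact h7'
    · exact h8
    · exact h9

theorem gap_prod_dvd (T : Finset ℕ) (hT : ∀ p ∈ T, p.Prime) (e : ℕ → ℕ) (z : ℤ)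
    (h : ∀ p ∈ T, ((p : ℤ) ^ e p) ∣ z) : (((∏ p ∈ T, p ^ e p : ℕ)) : ℤ) ∣ z := by
  push_cast
  refine Finset.prod_dvd_of_coprime ?_ h
  intro p hp q hq hpq
  have h1 : Nat.Coprime p q := (Nat.coprime_primes (hT p hp) (hT q hq)).2 hpq
  exact (Nat.isCoprime_iff_coprime.2 h1).pow

/-- GAP: the gap principle. -/
theorem GAP : T_GAP := by
  intro T δ c x y hT hδ hg hx hy hne hne' hle
  obtain ⟨hxA, hxW, hxw⟩ := hx
  obtain ⟨hyA, hyW, hyw⟩ := hy
  obtain ⟨hW, hw0, hw1, hsum⟩ := hg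
  set H : ℝ := (ht x : ℝ) with hH
  set H' : ℝ := (ht y : ℝ) with hH'
  have hH1 : 1 ≤ H := by rw [hH]; exact_mod_cast gap_one_le_ht hxA
  have hHH : H ≤ H' := by rw [hH, hH']; exact_mod_cast hle
  have hH0 : 0 < H := by linarith
  have hH'0 : 0 < H' := by linarith
  have hlog0 : 0 ≤ Real.log H := Real.log_nonneg hH1
  have hloglog : Real.log H ≤ Real.log H' := Real.log_le_log hH0 hHH
  set Δ : ℤ := x 0 * y 1 - x 1 * y 0 with hΔ
  have hΔ0 : Δ ≠ 0 := gap_det_ne hxA hyA hne hne'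
  -- lower bound
  set e : ℕ → ℕ := fun p => min ((x (c.σ p)).natAbs.factorization p)
    ((y (c.σ p)).natAbs.factorization p) with he
  have hdvd : ∀ p ∈ T, ((p : ℤ) ^ e p) ∣ Δ := by
    intro p hp
    have hpp := hT p hp
    obtain ⟨j, hj⟩ : ∃ j : Fin 3, c.σ p ≠ j := by
      by_cases h : c.σ p = 0
      · exact ⟨1, by rw [h]; decide⟩
      · exact ⟨0, h⟩
    have h1 : ((p : ℤ) ^ e p) ∣ x (c.σ p) := by
      have h2 : p ^ e p ∣ (x (c.σ p)).natAbs :=
        (pow_dvd_pow p (min_le_left _ _)).trans (Nat.ordProj_dvd _ _)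
      have h3 : ((p ^ e p : ℕ) : ℤ) ∣ x (c.σ p) := Int.natCast_dvd.2 h2
      exact_mod_cast h3
    have h1' : ((p : ℤ) ^ e p) ∣ y (c.σ p) := by
      have h2 : p ^ e p ∣ (y (c.σ p)).natAbs :=
        (pow_dvd_pow p (min_le_right _ _)).trans (Nat.ordProj_dvd _ _)
      have h3 : ((p ^ e p : ℕ) : ℤ) ∣ y (c.σ p) := Int.natCast_dvd.2 h2
      exact_mod_cast h3
    have h4 : ((p : ℤ) ^ e p) ∣ x (c.σ p) * y j - x j * y (c.σ p) :=
      dvd_sub (h1.mul_right _) (h1'.mul_left _)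
    rcases gap_det hxA.2.2 hyA.2.2 (c.σ p) j hj with h5 | h5
    · rwa [h5] at h4
    · rw [h5] at h4
      exact (dvd_neg.1 h4)
  have hprod : (((∏ p ∈ T, p ^ e p : ℕ)) : ℝ) ≤ |(Δ : ℝ)| := by
    have h1 := gap_prod_dvd T hT e Δ hdvd
    have h2 : (∏ p ∈ T, p ^ e p) ∣ Δ.natAbs := Int.natCast_dvd.1 h1
    have h3 := Nat.le_of_dvd (Int.natAbs_pos.2 hΔ0) h2
    rw [← Int.cast_abs, Int.abs_eq_natAbs]
    exact_mod_cast h3
  have hlow : (∑ p ∈ T, c.W p) * Real.log H ≤ Real.log |(Δ : ℝ)| := by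
    have h1 : Real.log (((∏ p ∈ T, p ^ e p : ℕ)) : ℝ) = ∑ p ∈ T, (e p : ℝ) * Real.log p := by
      push_cast
      rw [Real.log_prod]
      · exact Finset.sum_congr rfl fun p _ => Real.log_pow _ _
      · intro p hp
        have := (hT p hp).pos
        positivity
    have h2 : (0 : ℝ) < (((∏ p ∈ T, p ^ e p : ℕ)) : ℝ) := by
      exact_mod_cast Finset.prod_pos fun p hp => pow_pos (hT p hp).pos _
    calc (∑ p ∈ T, c.W p) * Real.log H = ∑ p ∈ T, c.W p * Real.log H := Finset.sum_mul _ _ _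
      _ ≤ ∑ p ∈ T, (e p : ℝ) * Real.log p := by
          refine Finset.sum_le_sum fun p hp => ?_
          have h3 := hxW p hp
          have h4 := hyW p hp
          have h5 : c.W p * Real.log H ≤ c.W p * Real.log H' :=
            mul_le_mul_of_nonneg_left hloglog (hW p hp)
          rcases min_choice ((x (c.σ p)).natAbs.factorization p)
            ((y (c.σ p)).natAbs.factorization p) with h6 | h6
          · simp only [he, h6]
            exact h3
          · simp only [he, h6]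
            exact h5.trans h4
      _ = Real.log (((∏ p ∈ T, p ^ e p : ℕ)) : ℝ) := h1.symm
      _ ≤ Real.log |(Δ : ℝ)| := Real.log_le_log h2 hprod
  -- upper bound
  have hup : |(Δ : ℝ)| ≤ 2 * H' * H ^ (1 - c.w) := by
    obtain ⟨j, hj⟩ : ∃ j : Fin 3, c.τ ≠ j := by
      by_cases h : c.τ = 0
      · exact ⟨1, by rw [h]; decide⟩
      · exact ⟨0, h⟩
    have h1 : |(Δ : ℝ)| = |(x c.τ : ℝ) * y j - x j * y c.τ| := by
      rcases gap_det hxA.2.2 hyA.2.2 c.τ j hj with h5 | h5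
      · have h6 : (x c.τ : ℝ) * y j - x j * y c.τ = (Δ : ℝ) := by exact_mod_cast h5
        rw [h6]
      · have h6 : (x c.τ : ℝ) * y j - x j * y c.τ = -(Δ : ℝ) := by exact_mod_cast h5
        rw [h6, abs_neg]
    have h2 : H * H' ^ (1 - c.w) ≤ H' * H ^ (1 - c.w) := by
      have h3 : H ^ c.w ≤ H' ^ c.w := Real.rpow_le_rpow hH0.le hHH hw0
      have h4 : H = H ^ (1 - c.w) * H ^ c.w := by
        rw [← Real.rpow_add hH0]; norm_num
      have h5 : H' ^ c.w * H' ^ (1 - c.w) = H' := by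
        rw [← Real.rpow_add hH'0]; norm_num
      calc H * H' ^ (1 - c.w) = H ^ (1 - c.w) * H ^ c.w * H' ^ (1 - c.w) := by rw [← h4]
        _ ≤ H ^ (1 - c.w) * H' ^ c.w * H' ^ (1 - c.w) := by gcongr
        _ = H ^ (1 - c.w) * (H' ^ c.w * H' ^ (1 - c.w)) := by ring
        _ = _ := by rw [h5]; ring
    rw [h1]
    calc |(x c.τ : ℝ) * y j - x j * y c.τ| ≤ |(x c.τ : ℝ) * y j| + |(x j : ℝ) * y c.τ| :=
          abs_sub _ _
      _ = |(x c.τ : ℝ)| * |(y j : ℝ)| + |(x j : ℝ)| * |(y c.τ : ℝ)| := by rw [abs_mul, abs_mul]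
      _ ≤ H ^ (1 - c.w) * H' + H * H' ^ (1 - c.w) := by
          have h7 := gap_abs_le_ht y j
          have h8 := gap_abs_le_ht x j
          gcongr
      _ ≤ _ := by linarith
  have hΔpos : 0 < |(Δ : ℝ)| := abs_pos.2 (by exact_mod_cast hΔ0)
  have h1 : Real.log |(Δ : ℝ)| ≤ Real.log (2 * H') + (1 - c.w) * Real.log H := by
    refine (Real.log_le_log hΔpos hup).trans ?_
    rw [Real.log_mul (by positivity) (by positivity), Real.log_rpow hH0]
  have h2 : (1 + δ) * Real.log H ≤ Real.log (2 * H') := by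
    have h3 : (2 + δ) * Real.log H ≤ (∑ p ∈ T, c.W p + c.w) * Real.log H :=
      mul_le_mul_of_nonneg_right hsum hlog0
    nlinarith
  rw [← Real.log_rpow hH0] at h2
  exact (Real.log_le_log_iff (by positivity) (by positivity)).1 h2

end Pool.Agent.H38.RB
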