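import Pool.Agent.H38.RB.Targets

/-!
# The quantitative theorem of Ridout for the points 0, 1, infinity
-/

set_option autoImplicit false

namespace Pool.Agent.H38.RB

theorem qr_one_le_ht {x : Fin 3 → ℤ} (hx : Adm x) : 1 ≤ ht x := by
  have h : 0 < (x 0).natAbs := Int.natAbs_pos.2 (hx.1 0)
  unfold ht
  omega

theorem qr_natAbs_le_ht (x : Fin 3 → ℤ) (i : Fin 3) : (x i).natAbs ≤ ht x := by
  unfold ht
  fin_cases i <;> simp

theorem qr_ht_neg (x : Fin 3 → ℤ) : ht (-x) = ht x := by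
  unfold ht
  simp

theorem qr_mono {κ κ' : ℝ} (h : κ ≤ κ') (T : Finset ℕ) : Sol κ T ⊆ Sol κ' T := by
  intro x hx
  refine ⟨hx.1, hx.2.trans ?_⟩
  have h1 : (1 : ℝ) ≤ (ht x : ℝ) := by exact_mod_cast qr_one_le_ht hx.1
  have h2 : (ht x : ℝ) ^ κ ≤ (ht x : ℝ) ^ κ' := Real.rpow_le_rpow_of_exponent_le h1 h
  gcongr

/-- heights in a good cell grow fast -/
theorem qr_grow (h2 : T_GAP) {T : Finset ℕ} (hT : ∀ p ∈ T, p.Prime) {δ : ℝ} (hδ : 0 < δ) {c : CD}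
    (hc : c.Good T δ) {x y : Fin 3 → ℤ} (hx : x ∈ c.cell T) (hy : y ∈ c.cell T)
    (hbig : 2 / δ * Real.log 2 ≤ Real.log (ht x)) (hle : ht x ≤ ht y) (h3 : y ≠ x)
    (h4 : y ≠ -x) : (1 + δ / 2) * Real.log (ht x) ≤ Real.log (ht y) := by
  have hH1 : (1 : ℝ) ≤ (ht x : ℝ) := by exact_mod_cast qr_one_le_ht hx.1
  have hH2 : (1 : ℝ) ≤ (ht y : ℝ) := by exact_mod_cast qr_one_le_ht hy.1
  have h5 := h2 T δ c x y hT hδ hc hx hy h3 h4 hle
  have h6 := Real.log_le_log (by positivity) h5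
  rw [Real.log_rpow (by linarith), Real.log_mul (by norm_num) (by linarith)] at h6
  have h7 : Real.log 2 ≤ δ / 2 * Real.log (ht x) := by
    have h8 := mul_le_mul_of_nonneg_left hbig (by positivity : 0 ≤ δ / 2)
    have h9 : δ / 2 * (2 / δ * Real.log 2) = Real.log 2 := by
      field_simp
    linarith
  nlinarith

theorem qr_count (h2 : T_GAP) {T : Finset ℕ} (hT : ∀ p ∈ T, p.Prime) {δ : ℝ} (hδ : 0 < δ)
    {c : CD} (hc : c.Good T δ) {m L : ℕ} {Ω K : ℝ} (hΩ : Ω ≤ (1 + δ / 2) ^ L)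
    (hmain : ∀ x : Fin m → Fin 3 → ℤ, (∀ h, x h ∈ c.cell T) →
      (∀ h, K ≤ Real.log (ht (x h))) →
      ¬ ∀ h h', h < h' → Ω * Real.log (ht (x h')) ≤ Real.log (ht (x h)))
    (F : Finset (Fin 3 → ℤ)) (hF : ∀ x ∈ F, x ∈ c.cell T)
    (hbig : ∀ x ∈ F, 2 / δ * Real.log 2 ≤ Real.log (ht x)) (hK : ∀ x ∈ F, K ≤ Real.log (ht x)) :
    F.card ≤ 2 * (m * L) := by
  classical
  by_contra hcon
  rw [not_le] at hcon
  have hlog2 : 0 < Real.log 2 := Real.log_pos (by norm_num)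
  have hpos : ∀ x ∈ F, 0 < Real.log (ht x) := fun x hx =>
    lt_of_lt_of_le (by positivity) (hbig x hx)
  -- fibres have at most two elements
  have hfib : ∀ h ∈ F.image ht, (F.filter fun x => ht x = h).card ≤ 2 := by
    intro h hh
    obtain ⟨x, hx, rfl⟩ := Finset.mem_image.1 hh
    have h5 : (F.filter fun y => ht y = ht x) ⊆ {x, -x} := by
      intro y hy
      rw [Finset.mem_filter] at hy
      rw [Finset.mem_insert, Finset.mem_singleton]
      by_contra h6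
      rw [not_or] at h6
      have h7 := qr_grow h2 hT hδ hc (hF x hx) (hF y hy.1) (hbig x hx) hy.2.symm.le h6.1 h6.2
      rw [hy.2] at h7
      have h8 := hpos x hx
      nlinarith
    exact (Finset.card_le_card h5).trans Finset.card_le_two
  have hcard : F.card ≤ 2 * (F.image ht).card := Finset.card_le_mul_card_image F 2 hfib
  set A : Finset ℕ := F.image ht with hA
  have hN : m * L < A.card := by omega
  set g := A.orderEmbOfFin (rfl : A.card = A.card) with hg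
  have hgA : ∀ i, g i ∈ A := fun i => Finset.orderEmbOfFin_mem A rfl i
  -- growth
  have hstep : ∀ a ∈ A, ∀ b ∈ A, a < b → (1 + δ / 2) * Real.log a ≤ Real.log b := by
    intro a ha b hb hab
    obtain ⟨x, hx, rfl⟩ := Finset.mem_image.1 ha
    obtain ⟨y, hy, rfl⟩ := Finset.mem_image.1 hb
    refine qr_grow h2 hT hδ hc (hF x hx) (hF y hy) (hbig x hx) hab.le ?_ ?_
    · rintro rfl; exact lt_irrefl _ hab
    · rintro rfl; rw [qr_ht_neg] at hab; exact lt_irrefl _ hab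
  have hchain : ∀ d i : ℕ, ∀ hi : i + d < A.card,
      (1 + δ / 2) ^ d * Real.log (g ⟨i, by omega⟩) ≤ Real.log (g ⟨i + d, hi⟩) := by
    intro d
    induction d with
    | zero => intro i hi; simp
    | succ d ih =>
      intro i hi
      have h5 := ih i (by omega)
      have h6 := hstep _ (hgA ⟨i + d, by omega⟩) _ (hgA ⟨i + (d + 1), hi⟩)
        (g.strictMono (by rw [Fin.lt_def]; simp))
      calc (1 + δ / 2) ^ (d + 1) * Real.log (g ⟨i, by omega⟩)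
          = (1 + δ / 2) * ((1 + δ / 2) ^ d * Real.log (g ⟨i, by omega⟩)) := by ring
        _ ≤ (1 + δ / 2) * Real.log (g ⟨i + d, by omega⟩) := by gcongr
        _ ≤ _ := h6
  have hmem : ∀ i, ∃ x ∈ F, ht x = g i := fun i => Finset.mem_image.1 (hgA i)
  choose w hwF hwg using hmem
  have hidx : ∀ h : Fin m, (m - 1 - (h : ℕ)) * L < A.card := by
    intro h
    refine lt_of_le_of_lt ?_ hN
    gcongr
    omega
  refine hmain (fun h => w ⟨(m - 1 - (h : ℕ)) * L, hidx h⟩) (fun h => hF _ (hwF _))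
    (fun h => hK _ (hwF _)) fun h h' hh => ?_
  have h5 : (h : ℕ) < (h' : ℕ) := hh
  have h6 : (m - 1 - (h' : ℕ)) * L + L ≤ (m - 1 - (h : ℕ)) * L := by
    have h7 : (m - 1 - (h' : ℕ)) + 1 ≤ m - 1 - (h : ℕ) := by
      have := h'.2
      omega
    calc (m - 1 - (h' : ℕ)) * L + L = ((m - 1 - (h' : ℕ)) + 1) * L := by ring
      _ ≤ _ := by gcongr
  have h8 : (m - 1 - (h' : ℕ)) * L + L < A.card := lt_of_le_of_lt h6 (hidx h)
  have h9 := hchain L _ h8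
  have h10 : g ⟨(m - 1 - (h' : ℕ)) * L + L, h8⟩ ≤ g ⟨(m - 1 - (h : ℕ)) * L, hidx h⟩ :=
    g.monotone (by rw [Fin.le_def]; exact h6)
  have h11 : 0 < Real.log (g ⟨(m - 1 - (h' : ℕ)) * L, hidx h'⟩) := by
    have := hpos _ (hwF ⟨(m - 1 - (h' : ℕ)) * L, hidx h'⟩)
    rwa [hwg] at this
  have h12 : (0 : ℝ) < (g ⟨(m - 1 - (h' : ℕ)) * L + L, h8⟩ : ℝ) := by
    have h13 : 1 ≤ g ⟨(m - 1 - (h' : ℕ)) * L + L, h8⟩ := by
      rw [← hwg]
      exact qr_one_le_ht (hF _ (hwF _)).1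
    exact_mod_cast h13
  show Ω * Real.log (ht (w ⟨(m - 1 - (h' : ℕ)) * L, hidx h'⟩)) ≤
    Real.log (ht (w ⟨(m - 1 - (h : ℕ)) * L, hidx h⟩))
  rw [hwg, hwg]
  calc Ω * Real.log (g ⟨(m - 1 - (h' : ℕ)) * L, hidx h'⟩)
      ≤ (1 + δ / 2) ^ L * Real.log (g ⟨(m - 1 - (h' : ℕ)) * L, hidx h'⟩) := by gcongr
    _ ≤ Real.log (g ⟨(m - 1 - (h' : ℕ)) * L + L, h8⟩) := h9
    _ ≤ _ := Real.log_le_log h12 (by exact_mod_cast h10)

theorem qr_finite {α : Type*} (S : Set α) (B : ℕ) (h : ∀ F : Finset α, (∀ x ∈ F, x ∈ S) →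
    F.card ≤ B) : S.Finite ∧ S.ncard ≤ B := by
  have h1 : S.Finite := by
    by_contra h2
    obtain ⟨F, hF, hc⟩ := Set.Infinite.exists_subset_card_eq h2 (B + 1)
    have := h F (fun x hx => hF hx)
    omega
  refine ⟨h1, ?_⟩
  rw [Set.ncard_eq_toFinset_card S h1]
  exact h _ fun x hx => by simpa using hx

/-- QR: the quantitative theorem of Ridout for the points `0, 1, ∞`. -/
theorem QR (h1 : T_CELL) (h2 : T_GAP) (h3 : T_MAIN) : T_QR := by
  classical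
  intro κ₀ hκ₀
  set κ : ℝ := max κ₀ 0 with hκ
  have hκ0 : 0 ≤ κ := le_max_right _ _
  have hκ1 : κ < 1 := max_lt hκ₀ one_pos
  set δ : ℝ := (1 - κ) / 2 with hδ
  have hδ0 : 0 < δ := by rw [hδ]; linarith
  have hδ1 : δ ≤ 1 := by rw [hδ]; linarith
  obtain ⟨C₁, H₁, hC₁, hcell⟩ := h1 κ hκ0 hκ1
  obtain ⟨m, Ω, K, hm, hΩ, hK, hmain⟩ := h3 δ hδ0 hδ1
  obtain ⟨L, hL⟩ := pow_unbounded_of_one_lt Ω (by linarith : 1 < 1 + δ / 2)
  have hL1 : Ω ≤ (1 + δ / 2) ^ (L + 1) := by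
    have h4 : (1 + δ / 2) ^ L ≤ (1 + δ / 2) ^ (L + 1) :=
      pow_le_pow_right₀ (by linarith) (Nat.le_succ L)
    linarith
  set H₂ : ℝ := max H₁ (max (Real.exp K) (Real.exp (2 / δ * Real.log 2))) with hH₂
  set M : ℕ := ⌈H₂⌉₊ with hM
  set B₀ : ℕ := (2 * M + 1) ^ 3 with hB₀
  set B₁ : ℕ := 2 * (m * (L + 1)) with hB₁
  refine ⟨C₁ * ((B₀ : ℝ) + B₁), ?_, fun T hT => ?_⟩
  · have h4 : (1 : ℝ) ≤ B₀ := by
      rw [hB₀]
      exact_mod_cast Nat.one_le_pow _ _ (by omega)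
    have h5 : (0 : ℝ) ≤ B₁ := Nat.cast_nonneg _
    nlinarith
  obtain ⟨𝒞, h𝒞, hgood, hcov⟩ := hcell T hT
  -- the box
  set Box : Finset (Fin 3 → ℤ) := Fintype.piFinset fun _ => Finset.Icc (-(M : ℤ)) M with hBox
  have hBoxc : Box.card = B₀ := by
    rw [hBox, Fintype.card_piFinset_const, Int.card_Icc, hB₀]
    congr 1
    omega
  -- the cells
  set S : CD → Set (Fin 3 → ℤ) := fun c => {x | x ∈ c.cell T ∧ H₂ ≤ (ht x : ℝ)} with hS
  have hSc : ∀ c ∈ 𝒞, (S c).Finite ∧ (S c).ncard ≤ B₁ := by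
    intro c hc
    refine qr_finite _ _ fun F hF => ?_
    have h4 : ∀ x ∈ F, ∀ a : ℝ, Real.exp a ≤ H₂ → a ≤ Real.log (ht x) := by
      intro x hx a ha
      have h5 := (hF x hx).2
      have h6 := Real.log_le_log (Real.exp_pos a) (ha.trans h5)
      rwa [Real.log_exp] at h6
    refine qr_count h2 hT hδ0 (hgood c hc) hL1
      (fun x hx1 hx2 => hmain T c hT (hgood c hc) x hx1 hx2) F (fun x hx => (hF x hx).1)
      (fun x hx => h4 x hx _ ?_) (fun x hx => h4 x hx _ ?_)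
    · exact (le_max_right _ _).trans (le_max_right _ _)
    · exact (le_max_left _ _).trans (le_max_right _ _)
  have hsub : Sol κ₀ T ⊆ (Box : Set (Fin 3 → ℤ)) ∪ ⋃ c ∈ 𝒞, S c := by
    intro x hx
    have hx' : x ∈ Sol κ T := qr_mono (le_max_left _ _) T hx
    by_cases h4 : H₂ ≤ (ht x : ℝ)
    · right
      obtain ⟨c, hc, hxc⟩ := hcov x hx' ((le_max_left _ _).trans h4)
      simp only [Set.mem_iUnion]
      exact ⟨c, hc, hxc, h4⟩
    · left
      rw [not_le] at h4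
      have h5 : ht x ≤ M := by
        have h6 : (ht x : ℝ) ≤ (M : ℝ) := h4.le.trans (Nat.le_ceil _)
        exact_mod_cast h6
      rw [Finset.mem_coe, hBox, Fintype.mem_piFinset]
      intro i
      have h6 := (qr_natAbs_le_ht x i).trans h5
      rw [Finset.mem_Icc]
      omega
  have hfinU : ((Box : Set (Fin 3 → ℤ)) ∪ ⋃ c ∈ 𝒞, S c).Finite := by
    refine (Finset.finite_toSet Box).union ?_
    exact Set.Finite.biUnion (Finset.finite_toSet 𝒞) fun c hc => (hSc c hc).1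
  refine ⟨hfinU.subset hsub, ?_⟩
  have h6 : ∀ 𝒟 : Finset CD, 𝒟 ⊆ 𝒞 → (⋃ c ∈ 𝒟, S c).ncard ≤ 𝒟.card * B₁ := by
    intro 𝒟
    induction 𝒟 using Finset.induction_on with
    | empty => intro _; simp
    | insert c 𝒟 hc ih =>
      intro hsub'
      rw [Finset.set_biUnion_insert, Finset.card_insert_of_notMem hc]
      refine (Set.ncard_union_le _ _).trans ?_
      have h7 := ih fun y hy => hsub' (Finset.mem_insert_of_mem hy)
      have h8 := (hSc c (hsub' (Finset.mem_insert_self _ _))).2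
      linarith [h7, h8, (by ring : (𝒟.card + 1) * B₁ = 𝒟.card * B₁ + B₁)]
  have h7 : (Sol κ₀ T).ncard ≤ B₀ + 𝒞.card * B₁ := by
    refine (Set.ncard_le_ncard hsub hfinU).trans ((Set.ncard_union_le _ _).trans ?_)
    rw [Set.ncard_coe_finset, hBoxc]
    exact Nat.add_le_add_left (h6 𝒞 subset_rfl) _
  have h8 : (1 : ℝ) ≤ B₀ := by
    rw [hB₀]
    exact_mod_cast Nat.one_le_pow _ _ (by omega)
  have h9 : (0 : ℝ) ≤ B₁ := Nat.cast_nonneg _
  have h10 : (1 : ℝ) ≤ C₁ ^ (T.card + 1) := one_le_pow₀ hC₁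
  have h11 : (B₀ : ℝ) + B₁ ≤ ((B₀ : ℝ) + B₁) ^ (T.card + 1) :=
    le_self_pow₀ (by linarith) (Nat.succ_ne_zero _)
  calc ((Sol κ₀ T).ncard : ℝ) ≤ ((B₀ + 𝒞.card * B₁ : ℕ) : ℝ) := by exact_mod_cast h7
    _ = (B₀ : ℝ) + 𝒞.card * B₁ := by push_cast; ring
    _ ≤ (B₀ : ℝ) + C₁ ^ (T.card + 1) * B₁ := by gcongr
    _ ≤ C₁ ^ (T.card + 1) * (B₀ + B₁) := by nlinarith
    _ ≤ C₁ ^ (T.card + 1) * ((B₀ : ℝ) + B₁) ^ (T.card + 1) := by gcongr
    _ = _ := by rw [mul_pow]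

end Pool.Agent.H38.RB
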