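import Pool.Agent.H38.RB.Targets
import Pool.Agent.H56.RB.LOW
import Pool.Agent.H27.UE.AuxPoly

/-!
# Upper bound for a coefficient
-/

set_option autoImplicit false

open MvPolynomial Pool.Agent.H21.UE

namespace Pool.Agent.H38.RB

theorem upp_ht_one {x : Fin 3 → ℤ} (hx : Adm x) : (1 : ℝ) ≤ (ht x : ℝ) := by
  have h : 0 < (x 0).natAbs := Int.natAbs_pos.2 (hx.1 0)
  have h1 : 1 ≤ ht x := by
    unfold ht
    omega
  exact_mod_cast h1

theorem upp_abs_le (x : Fin 3 → ℤ) (i : Fin 3) : |(x i : ℝ)| ≤ (ht x : ℝ) := by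
  have h : (x i).natAbs ≤ ht x := by
    unfold ht
    fin_cases i <;> simp
  rw [← Int.cast_abs, Int.abs_eq_natAbs]
  exact_mod_cast h

theorem upp_pow {X0 X1 H w : ℝ} {a b r s : ℕ} (hH : 1 ≤ H) (hw : 0 ≤ w) (h0 : 0 ≤ X0)
    (h1 : 0 ≤ X1) (hX0 : X0 ≤ H ^ (1 - w)) (hX1 : X1 ≤ H) (hab : a + b ≤ r) (hs : s ≤ a) :
    X0 ^ a * X1 ^ b ≤ H ^ ((r : ℝ) - w * s) := by
  have hH0 : 0 < H := by linarith
  calc X0 ^ a * X1 ^ b ≤ (H ^ (1 - w)) ^ a * H ^ b := by gcongr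
    _ = H ^ ((1 - w) * a + b) := by
        rw [← Real.rpow_natCast (H ^ (1 - w)), ← Real.rpow_mul hH0.le, Real.rpow_add hH0,
          Real.rpow_natCast]
    _ ≤ H ^ ((r : ℝ) - w * s) := by
        refine Real.rpow_le_rpow_of_exponent_le hH ?_
        have h2 : (a : ℝ) + b ≤ r := by exact_mod_cast hab
        have h3 : (s : ℝ) ≤ a := by exact_mod_cast hs
        nlinarith

theorem upp_factor {c : CD} {T : Finset ℕ} (hw0 : 0 ≤ c.w) {x : Fin 3 → ℤ}
    (hx : x ∈ c.cell T) {J0 J1 k r : ℕ} (hJ : J0 + J1 = r) (s : ℕ)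
    (hs : s = (if c.τ = 1 then J1 else J0) - k) :
    |(((J0.choose k : ℤ) * sg (vv c.τ) x ^ (J0 - k) * x 1 ^ J1 : ℤ) : ℝ)| ≤
      2 ^ r * (ht x : ℝ) ^ ((r : ℝ) - c.w * s) := by
  have hH := upp_ht_one hx.1
  have hcell := hx.2.2
  have hch : |((J0.choose k : ℕ) : ℝ)| ≤ 2 ^ r := by
    rw [abs_of_nonneg (Nat.cast_nonneg _)]
    have h1 : J0.choose k ≤ 2 ^ r :=
      (Nat.choose_le_two_pow _ _).trans (Nat.pow_le_pow_right (by norm_num) (by omega))
    exact_mod_cast h1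
  have key : |(sg (vv c.τ) x : ℝ)| ^ (J0 - k) * |(x 1 : ℝ)| ^ J1 ≤
      (ht x : ℝ) ^ ((r : ℝ) - c.w * s) := by
    by_cases h1 : c.τ = 1
    · rw [if_pos h1] at hs
      have h2 : (sg (vv c.τ) x : ℝ) = x 0 := by
        rw [h1]
        simp [vv, sg]
      rw [h2, mul_comm]
      rw [h1] at hcell
      exact upp_pow hH hw0 (abs_nonneg _) (abs_nonneg _) hcell (upp_abs_le x 0) (by omega)
        (by omega)
    · rw [if_neg h1] at hs
      have h2 : |(sg (vv c.τ) x : ℝ)| = |(x c.τ : ℝ)| := by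
        rcases (by omega : c.τ = 0 ∨ c.τ = 1 ∨ c.τ = 2) with h3 | h3 | h3
        · rw [h3]
          simp [vv, sg]
        · exact absurd h3 h1
        · rw [h3]
          have h4 : sg (vv 2) x = -x 2 := by
            have := hx.1.2.2
            simp only [vv, sg, if_true]
            norm_num
            linarith
          rw [h4]
          simp
      rw [h2]
      exact upp_pow hH hw0 (abs_nonneg _) (abs_nonneg _) hcell (upp_abs_le x 1) (by omega)
        (by omega)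
  calc |(((J0.choose k : ℤ) * sg (vv c.τ) x ^ (J0 - k) * x 1 ^ J1 : ℤ) : ℝ)|
      = |((J0.choose k : ℕ) : ℝ)| * (|(sg (vv c.τ) x : ℝ)| ^ (J0 - k) * |(x 1 : ℝ)| ^ J1) := by
        push_cast
        rw [abs_mul, abs_mul, abs_pow, abs_pow, mul_assoc]
    _ ≤ 2 ^ r * (ht x : ℝ) ^ ((r : ℝ) - c.w * s) := by gcongr

theorem upp_weight {m : ℕ} (R ε : ℝ) (l : Fin m → ℝ) (r J k : Fin m → ℕ)
    (hr : ∀ h, 1 ≤ r h) (hR : ∀ h, R ≤ r h * l h) (hR0 : 0 < R)
    (hJ : |∑ h, (J h : ℝ) / r h - m / 2| ≤ ε * m) (hk : ∑ h, (k h : ℝ) / r h ≤ ε * m) :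
    R * (m / 2 - 2 * ε * m) ≤ ∑ h, ((J h - k h : ℕ) : ℝ) * l h := by
  have h1 : ∀ h, R * ((J h : ℝ) / r h - (k h : ℝ) / r h) ≤ ((J h - k h : ℕ) : ℝ) * l h := by
    intro h
    have hr0 : (0 : ℝ) < r h := by exact_mod_cast hr h
    have h2 : (J h : ℝ) - k h ≤ ((J h - k h : ℕ) : ℝ) := by
      rw [sub_le_iff_le_add]
      exact_mod_cast (by omega : J h ≤ J h - k h + k h)
    have h3 : (0 : ℝ) ≤ ((J h - k h : ℕ) : ℝ) := Nat.cast_nonneg _
    calc R * ((J h : ℝ) / r h - (k h : ℝ) / r h) = R / r h * ((J h : ℝ) - k h) := by field_simp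
      _ ≤ R / r h * ((J h - k h : ℕ) : ℝ) := mul_le_mul_of_nonneg_left h2 (by positivity)
      _ ≤ l h * ((J h - k h : ℕ) : ℝ) := by
          refine mul_le_mul_of_nonneg_right ?_ h3
          rw [div_le_iff₀ hr0]
          linarith [hR h]
      _ = _ := mul_comm _ _
  have h2 := Finset.sum_le_sum fun h (_ : h ∈ Finset.univ) => h1 h
  rw [← Finset.mul_sum, Finset.sum_sub_distrib] at h2
  refine le_trans (mul_le_mul_of_nonneg_left ?_ hR0.le) h2
  have h3 := (abs_le.1 hJ).1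
  linarith

theorem upp_l1 {m : ℕ} (v : Fin 2) (P : MvPolynomial (Fin m × Fin 2) ℤ) (r : Fin m → ℕ)
    (hP : ∀ J ∈ P.support, ∀ h, ∑ i, J (h, i) = r h) :
    l1 (subst (A v) P) ≤ 2 ^ (∑ h, r h) * l1 P := by
  have h0 : ∀ q : Fin m × Fin 2, l1 (∑ j, C (A v q.2 j) * X (q.1, j) :
      MvPolynomial (Fin m × Fin 2) ℤ) ≤ 2 := by
    intro q
    refine (l1_sum_le _ _).trans ?_
    have h1 : ∀ j, l1 (C (A v q.2 j) * X (q.1, j) : MvPolynomial (Fin m × Fin 2) ℤ) ≤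
        |((A v q.2 j : ℤ) : ℝ)| := by
      intro j
      refine (l1_mul_le _ _).trans ?_
      rw [l1_C, l1_X, mul_one]
    refine (Finset.sum_le_sum fun j _ => h1 j).trans ?_
    obtain ⟨h, i⟩ := q
    fin_cases v <;> fin_cases i <;> simp [A, Fin.sum_univ_two] <;> norm_num
  rw [subst]
  refine (l1_aeval_le _ (fun _ => 2) h0 _).trans ?_
  unfold l1
  rw [Finset.mul_sum]
  refine Finset.sum_le_sum fun J hJ => le_of_eq ?_
  rw [Finset.prod_pow_eq_pow_sum, Fintype.sum_prod_type, mul_comm]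
  congr 2
  exact Finset.sum_congr rfl fun h _ => hP J hJ h

/-- UPP: upper bound for the coefficient. -/
theorem UPP (hC : T_COEF) : T_UPP := by
  intro T c m x r P k ε R D hw0 hw1 hx hR hε hD hr hRr hP hl1 hbal hne hk
  set g := (tw x P).coeff k with hg
  have hg0 : (0 : ℝ) < |(g : ℝ)| := abs_pos.2 (by exact_mod_cast hne)
  obtain ⟨-, hform⟩ := hC m x r P hP k hne
  have hQ := subst_homog (A (vv c.τ)) P r hP
  set Q := subst (A (vv c.τ)) P with hQdef
  have hH : ∀ h, (1 : ℝ) ≤ (ht (x h) : ℝ) := fun h => upp_ht_one (hx h).1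
  set E : ℝ := ∑ h, (r h : ℝ) * Real.log (ht (x h)) - c.w * R * (m / 2 - 2 * ε * m) with hE
  have hterm : ∀ J ∈ Q.support, |((∏ h, (((J (h, 0)).choose (k (h, 0)) : ℤ) *
      sg (vv c.τ) (x h) ^ (J (h, 0) - k (h, 0)) * x h 1 ^ J (h, 1)) : ℤ) : ℝ)| ≤
      2 ^ (∑ h, r h) * Real.exp E := by
    intro J hJ
    have hJ1 : ∀ h, J (h, 0) + J (h, 1) = r h := by
      intro h
      have := hQ J hJ h
      rwa [Fin.sum_univ_two] at this
    have h1 : ∀ h, |((((J (h, 0)).choose (k (h, 0)) : ℤ) *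
        sg (vv c.τ) (x h) ^ (J (h, 0) - k (h, 0)) * x h 1 ^ J (h, 1) : ℤ) : ℝ)| ≤
        2 ^ r h * Real.exp (((r h : ℝ) - c.w * ((J (h, cc c.τ) - k (h, 0) : ℕ) : ℝ)) *
          Real.log (ht (x h))) := by
      intro h
      have hHh : (0 : ℝ) < (ht (x h) : ℝ) := lt_of_lt_of_le one_pos (hH h)
      have h2 := upp_factor hw0 (hx h) (hJ1 h) (k := k (h, 0)) (J (h, cc c.τ) - k (h, 0)) (by
        unfold cc
        split_ifs <;> rfl)
      refine h2.trans (le_of_eq ?_)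
      rw [Real.rpow_def_of_pos hHh, mul_comm (Real.log _)]
    rw [Int.cast_prod, Finset.abs_prod]
    refine (Finset.prod_le_prod (fun h _ => abs_nonneg _) fun h _ => h1 h).trans ?_
    rw [Finset.prod_mul_distrib, Finset.prod_pow_eq_pow_sum, ← Real.exp_sum]
    refine mul_le_mul_of_nonneg_left (Real.exp_le_exp.2 ?_) (by positivity)
    have h3 := upp_weight R ε (fun h => Real.log (ht (x h))) r (fun h => J (h, cc c.τ))
      (fun h => k (h, 0)) hr hRr hR (hbal _ J hJ _) hk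
    have h4 : ∑ h, ((r h : ℝ) - c.w * ((J (h, cc c.τ) - k (h, 0) : ℕ) : ℝ)) *
        Real.log (ht (x h)) = ∑ h, (r h : ℝ) * Real.log (ht (x h)) -
        c.w * ∑ h, ((J (h, cc c.τ) - k (h, 0) : ℕ) : ℝ) * Real.log (ht (x h)) := by
      rw [Finset.mul_sum, ← Finset.sum_sub_distrib]
      exact Finset.sum_congr rfl fun h _ => by ring
    rw [h4, hE]
    have h5 := mul_le_mul_of_nonneg_left h3 hw0
    linarith
  have hsum : |(g : ℝ)| ≤ l1 Q * (2 ^ (∑ h, r h) * Real.exp E) := by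
    rw [hg, hform (vv c.τ), Int.cast_sum]
    refine (Finset.abs_sum_le_sum_abs _ _).trans ?_
    unfold l1
    rw [Finset.sum_mul]
    refine Finset.sum_le_sum fun J hJ => ?_
    rw [Int.cast_mul, abs_mul]
    exact mul_le_mul_of_nonneg_left (hterm J hJ) (abs_nonneg _)
  have hl : l1 Q ≤ 2 ^ (∑ h, r h) * D ^ (∑ h, r h) :=
    (upp_l1 _ P r hP).trans (mul_le_mul_of_nonneg_left hl1 (by positivity))
  have hfin : |(g : ℝ)| ≤ (4 * D) ^ (∑ h, r h) * Real.exp E := by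
    calc |(g : ℝ)| ≤ l1 Q * (2 ^ (∑ h, r h) * Real.exp E) := hsum
      _ ≤ 2 ^ (∑ h, r h) * D ^ (∑ h, r h) * (2 ^ (∑ h, r h) * Real.exp E) := by gcongr
      _ = (4 * D) ^ (∑ h, r h) * Real.exp E := by
          rw [show (4 : ℝ) = 2 * 2 by norm_num, mul_pow, mul_pow]
          ring
  have h6 := Real.log_le_log hg0 hfin
  have hD0 : 0 < D := by linarith
  rw [Real.log_mul (by positivity) (Real.exp_pos _).ne', Real.log_pow, Real.log_exp] at h6
  refine h6.trans (le_of_eq ?_)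
  rw [hE]
  push_cast
  ring

end Pool.Agent.H38.RB
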